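import Mathlib

/-!
# Exponentially long best-response paths in budgeted sharing games

Every agent of the construction has one private site whose cost is its whole budget, and a few
shared sites, each shared with one other agent, which it can afford all together.  So a best response
is either the private site or the set of all shared sites of the agent, and with suitable rates this
is the local search for a maximum cut in a weighted graph.  In the weighted graph a chain of gadgets
with three vertices and five edges each triples the number of flips at every level.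
-/

set_option autoImplicit false

namespace Pool.Agent.Results.MP_2a1065_lc.ExponentialPath

open Finset

/-- An instance of the budgeted sharing game with set of agents `U` and set of sites `H`. -/
structure Game (U H : Type) where
  /-- the bipartite graph: agent `j` is interested in site `i` -/
  interested : U → H → Prop
  /-- the query rate of a site -/
  rate : H → ℝ
  /-- the cost of a site -/
  cost : H → ℝ
  /-- the budget of an agent -/
  budget : U → ℝ
  rate_pos : ∀ i, 0 < rate i
  cost_pos : ∀ i, 0 < cost i
  budget_pos : ∀ j, 0 < budget j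

/-- A feasible strategy of agent `j`: a finite set of sites that `j` is interested in, of total cost
at most the budget of `j`. -/
def Game.Feasible {U H : Type} (G : Game U H) (j : U) (s : Finset H) : Prop :=
  (∀ i ∈ s, G.interested j i) ∧ ∑ i ∈ s, G.cost i ≤ G.budget j

/-- The number of agents that serve site `i` in the state `S`. -/
noncomputable def load {U H : Type} (S : U → Finset H) (i : H) : ℕ := {j | i ∈ S j}.ncard

/-- The payoff of agent `j` in the state `S`. -/
noncomputable def Game.payoff {U H : Type} (G : Game U H) (S : U → Finset H) (j : U) : ℝ :=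
  ∑ i ∈ S j, G.rate i / load S i

/-- A best-response move from `S` to `S'`: only one agent `j` changes its strategy, the new strategy
is feasible and maximises the payoff of `j` among the feasible strategies of `j` (the strategies of
the others being fixed), and the payoff of `j` strictly increases. -/
def Game.BestResponseMove {U H : Type} (G : Game U H) (S S' : U → Finset H) : Prop :=
  ∃ j : U, (∀ k, k ≠ j → S' k = S k) ∧ G.Feasible j (S' j) ∧
    (∀ T : U → Finset H, (∀ k, k ≠ j → T k = S k) → G.Feasible j (T j) →
      G.payoff T j ≤ G.payoff S' j) ∧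
    G.payoff S j < G.payoff S' j

/-- `p 0, p 1, ..., p L` is a best-response path of length `L` (with `L` moves): `p 0` is a state of
feasible strategies and each state arises from the previous one by a best-response move. -/
def Game.IsBestResponsePath {U H : Type} (G : Game U H) (L : ℕ) (p : ℕ → U → Finset H) : Prop :=
  (∀ j, G.Feasible j (p 0 j)) ∧ ∀ k < L, G.BestResponseMove (p k) (p (k + 1))

/-! ## Flips in weighted graphs -/

/-- `1` if the two values agree, `-1` otherwise -/
def sg (b c : Bool) : ℝ := if b = c then 1 else -1

lemma sg_not (b c : Bool) : sg (!b) (!c) = sg b c := by cases b <;> cases c <;> rfl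

lemma neg_one_le_sg (b c : Bool) : -1 ≤ sg b c := by
  unfold sg; split_ifs <;> norm_num

section cut

variable {V E : Type} [DecidableEq V] [Fintype E]

/-- weight of the edges at `i` to vertices on the same side minus the other edges at `i` -/
def gain (s t : E → V) (q : E → ℝ) (x : V → Bool) (i : V) : ℝ :=
  ∑ e, ((if s e = i then sg (x i) (x (t e)) * q e else 0) +
    (if t e = i then sg (x i) (x (s e)) * q e else 0))

/-- the vertex `i` changes its side -/
def flip (x : V → Bool) (i : V) : V → Bool := Function.update x i (!(x i))

/-- the flips of the list can be made one after the other, each one being an improvement -/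
def Valid (s t : E → V) (q : E → ℝ) : (V → Bool) → List V → Prop
  | _, [] => True
  | x, i :: l => 0 < gain s t q x i ∧ Valid s t q (flip x i) l

/-- the result of a list of flips -/
def run : (V → Bool) → List V → (V → Bool)
  | x, [] => x
  | x, i :: l => run (flip x i) l

/-- all vertices change sides -/
def neg (x : V → Bool) : V → Bool := fun i => !(x i)

omit [DecidableEq V] in
lemma neg_neg' (x : V → Bool) : neg (neg x) = x := by
  funext i; simp [neg]

lemma gain_neg (s t : E → V) (q : E → ℝ) (x : V → Bool) (i : V) :
    gain s t q (neg x) i = gain s t q x i := by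
  simp only [gain, neg, sg_not]

omit [Fintype E] in
lemma flip_neg (x : V → Bool) (i : V) : flip (neg x) i = neg (flip x i) := by
  funext j
  by_cases h : j = i
  · subst h; simp [flip, neg]
  · simp [flip, neg, Function.update_of_ne h]

lemma run_neg (l : List V) : ∀ x : V → Bool, run (neg x) l = neg (run x l) := by
  induction l with
  | nil => intro x; rfl
  | cons i l ih => intro x; simp only [run, flip_neg, ih]

lemma valid_neg (s t : E → V) (q : E → ℝ) (l : List V) :
    ∀ x : V → Bool, Valid s t q x l → Valid s t q (neg x) l := by
  induction l with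
  | nil => intro x _; trivial
  | cons i l ih =>
      intro x h
      refine ⟨?_, ?_⟩
      · rw [gain_neg]; exact h.1
      · rw [flip_neg]; exact ih _ h.2

lemma run_append (l l' : List V) : ∀ x : V → Bool, run x (l ++ l') = run (run x l) l' := by
  induction l with
  | nil => intro x; rfl
  | cons i l ih => intro x; simp only [List.cons_append, run, ih]

lemma valid_append (s t : E → V) (q : E → ℝ) (l l' : List V) : ∀ x : V → Bool,
    Valid s t q x (l ++ l') ↔ Valid s t q x l ∧ Valid s t q (run x l) l' := by
  induction l with
  | nil => intro x; simp [Valid, run]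
  | cons i l ih => intro x; simp only [List.cons_append, Valid, run, ih, and_assoc]

end cut

/-! ## One more level -/

section level

variable {V E : Type}

/-- first end vertices after adding one level -/
def s' (s : E → V) : E ⊕ Fin 5 → V ⊕ Fin 3 :=
  Sum.elim (fun e => .inl (s e)) ![.inr 0, .inr 1, .inr 0, .inr 1, .inr 2]

/-- second end vertices after adding one level above the root `r` -/
def t' (r : V) (t : E → V) : E ⊕ Fin 5 → V ⊕ Fin 3 :=
  Sum.elim (fun e => .inl (t e)) ![.inr 1, .inr 2, .inl r, .inl r, .inl r]

/-- weights after adding one level -/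
def q' (R : ℝ) (q : E → ℝ) : E ⊕ Fin 5 → ℝ :=
  Sum.elim q ![4 * R, 2 * R, R, R, R]

variable [DecidableEq V] [Fintype E] (s t : E → V) (q : E → ℝ) (r : V) (R : ℝ)

lemma gain_inl (x : V → Bool) (y : Fin 3 → Bool) (i : V) :
    gain (s' s) (t' r t) (q' R q) (Sum.elim x y) (.inl i) = gain s t q x i +
      (if r = i then R * (sg (x i) (y 0) + sg (x i) (y 1) + sg (x i) (y 2)) else 0) := by
  simp only [gain, s', t', q', Fintype.sum_sum_type, Fin.sum_univ_five, Sum.elim_inl, Sum.elim_inr,
    Sum.inl.injEq, Matrix.cons_val, reduceCtorEq, if_false, add_zero, zero_add]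
  split_ifs with h
  · subst h; ring
  · ring

lemma gain_a (x : V → Bool) (y : Fin 3 → Bool) :
    gain (s' s) (t' r t) (q' R q) (Sum.elim x y) (.inr 1) =
      R * (4 * sg (y 1) (y 0) + 2 * sg (y 1) (y 2) + sg (y 1) (x r)) := by
  simp [gain, s', t', q', Fintype.sum_sum_type, Fin.sum_univ_five]
  ring

lemma gain_b (x : V → Bool) (y : Fin 3 → Bool) :
    gain (s' s) (t' r t) (q' R q) (Sum.elim x y) (.inr 2) =
      R * (2 * sg (y 2) (y 1) + sg (y 2) (x r)) := by
  simp [gain, s', t', q', Fintype.sum_sum_type, Fin.sum_univ_five]
  ring

omit [Fintype E] in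
lemma flip_inl (x : V → Bool) (y : Fin 3 → Bool) (i : V) :
    flip (Sum.elim x y) (.inl i) = Sum.elim (flip x i) y := by
  funext j
  rcases j with j | j
  · by_cases h : j = i
    · subst h; simp [flip]
    · simp [flip, h]
  · simp [flip]

omit [Fintype E] in
lemma flip_inr (x : V → Bool) (y : Fin 3 → Bool) (i : Fin 3) :
    flip (Sum.elim x y) (.inr i) = Sum.elim x (flip y i) := by
  funext j
  rcases j with j | j
  · simp [flip]
  · by_cases h : j = i
    · subst h; simp [flip]
    · simp [flip, h]

omit [Fintype E] in
lemma run_map (l : List V) (y : Fin 3 → Bool) : ∀ x : V → Bool,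
    run (Sum.elim x y) (l.map .inl) = Sum.elim (run x l) y := by
  induction l with
  | nil => intro x; rfl
  | cons i l ih => intro x; simp only [List.map_cons, run, flip_inl, ih]

lemma valid_map (l : List V) (y : Fin 3 → Bool) (hr : r ∉ l) : ∀ x : V → Bool,
    Valid s t q x l → Valid (s' s) (t' r t) (q' R q) (Sum.elim x y) (l.map .inl) := by
  induction l with
  | nil => intro x _; trivial
  | cons i l ih =>
      intro x h
      rw [List.mem_cons, not_or] at hr
      refine ⟨?_, ?_⟩
      · rw [gain_inl, if_neg hr.1, add_zero]; exact h.1
      · rw [flip_inl]; exact ih hr.2 _ h.2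

lemma gain_ge (hq : ∀ e, 0 < q e) (x : V → Bool) (i : V) : -(2 * ∑ e, q e) ≤ gain s t q x i := by
  unfold gain
  rw [mul_sum, ← sum_neg_distrib]
  refine sum_le_sum fun e _ => ?_
  have h0 := hq e
  have h1 := neg_one_le_sg (x i) (x (t e))
  have h2 := neg_one_le_sg (x i) (x (s e))
  split_ifs <;> nlinarith

/-- The whole cascade one level down, with the root `r` flipping first. -/
lemma cascade (hq : ∀ e, 0 < q e) (hR : 2 * ∑ e, q e < R) (l : List V) (hr : r ∉ l)
    (x : V → Bool) (y : Fin 3 → Bool) (hv : Valid s t q (flip x r) l)
    (hx : run (flip x r) l = neg x)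
    (hy : 1 ≤ sg (x r) (y 0) + sg (x r) (y 1) + sg (x r) (y 2)) :
    Valid (s' s) (t' r t) (q' R q) (Sum.elim x y) ((r :: l).map .inl) ∧
      run (Sum.elim x y) ((r :: l).map .inl) = Sum.elim (neg x) y := by
  have hR0 : 0 < R := lt_of_le_of_lt (by
    have := sum_nonneg (fun e (_ : e ∈ univ) => (hq e).le); linarith) hR
  refine ⟨⟨?_, ?_⟩, ?_⟩
  · rw [gain_inl, if_pos rfl]
    have := gain_ge s t q hq x r
    nlinarith
  · rw [flip_inl]; exact valid_map s t q r R l y hr _ hv
  · rw [List.map_cons, run, flip_inl, run_map, hx]

end level

/-- The chain with `K` levels. -/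
lemma chain (K : ℕ) : ∃ (V E : Type) (_ : Fintype V) (_ : DecidableEq V) (_ : Fintype E)
    (s t : E → V) (q : E → ℝ) (r : V) (x : V → Bool) (l : List V),
    Fintype.card V = 3 * K + 1 ∧ Fintype.card E = 5 * K ∧ (∀ e, s e ≠ t e) ∧ (∀ e, 0 < q e) ∧
    r ∉ l ∧ Valid s t q (flip x r) l ∧ run (flip x r) l = neg x ∧ 3 ^ K ≤ l.length + 1 := by
  induction K with
  | zero =>
      refine ⟨Unit, Empty, inferInstance, inferInstance, inferInstance, fun e => e.elim,
        fun e => e.elim, fun e => e.elim, (), fun _ => false, [], rfl, rfl, fun e => e.elim,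
        fun e => e.elim, by simp, trivial, ?_, by simp⟩
      funext i
      simp [run, flip, neg]
  | succ K ih =>
      obtain ⟨V, E, _, _, _, s, t, q, r, x, l, hV, hE, hst, hq, hr, hv, hx, hl⟩ := ih
      obtain ⟨R, hR⟩ := exists_gt (2 * ∑ e, q e)
      have hR0 : 0 < R := lt_of_le_of_lt (by
        have := sum_nonneg (fun e (_ : e ∈ univ) => (hq e).le); linarith) hR
      -- the values of the three top vertices before the root flips
      let y : Fin 3 → Bool := ![!(x r), x r, !(x r)]
      let L : List (V ⊕ Fin 3) := (r :: l).map .inl
      have hv' : Valid s t q (flip (neg x) r) l := by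
        rw [flip_neg]; exact valid_neg s t q l _ hv
      have hx' : run (flip (neg x) r) l = neg (neg x) := by
        rw [flip_neg, run_neg, hx]
      have hrx : neg x r = !(x r) := rfl
      have y1 : flip y 0 = ![x r, x r, !(x r)] := by
        funext j; fin_cases j <;> simp [flip, y]
      have y2 : flip ![x r, x r, !(x r)] 1 = ![x r, !(x r), !(x r)] := by
        funext j; fin_cases j <;> simp [flip]
      have y3 : flip ![x r, !(x r), !(x r)] 2 = ![x r, !(x r), x r] := by
        funext j; fin_cases j <;> simp [flip]
      have c1 := cascade s t q r R hq hR l hr x ![x r, x r, !(x r)] hv hx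
        (by simp only [Matrix.cons_val]; cases x r <;> norm_num [sg])
      have c2 := cascade s t q r R hq hR l hr (neg x) ![x r, !(x r), !(x r)] hv' hx'
        (by simp only [Matrix.cons_val, hrx]; cases x r <;> norm_num [sg])
      have c3 := cascade s t q r R hq hR l hr x ![x r, !(x r), x r] hv hx
        (by simp only [Matrix.cons_val]; cases x r <;> norm_num [sg])
      refine ⟨V ⊕ Fin 3, E ⊕ Fin 5, inferInstance, inferInstance, inferInstance, s' s, t' r t,
        q' R q, .inr 0, Sum.elim x y, L ++ ([.inr 1] ++ (L ++ ([.inr 2] ++ L))), ?_, ?_, ?_, ?_, ?_,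
        ?_, ?_, ?_⟩
      · rw [Fintype.card_sum, hV, Fintype.card_fin]; ring
      · rw [Fintype.card_sum, hE, Fintype.card_fin]; ring
      · rintro (e | e)
        · simpa [s', t'] using hst e
        · fin_cases e <;> simp [s', t']
      · rintro (e | e)
        · exact hq e
        · fin_cases e <;> simp [q', hR0]
      · simp [L]
      · rw [flip_inr, y1, valid_append]
        refine ⟨c1.1, ?_⟩
        rw [c1.2, valid_append]
        refine ⟨⟨?_, trivial⟩, ?_⟩
        · rw [gain_a]
          refine mul_pos hR0 ?_
          simp only [Matrix.cons_val, hrx]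
          cases x r <;> norm_num [sg]
        · have e1 : run (Sum.elim (neg x) ![x r, x r, !(x r)]) [.inr 1] =
              Sum.elim (neg x) ![x r, !(x r), !(x r)] := by
            rw [run, run, flip_inr, y2]
          rw [e1, valid_append]
          refine ⟨c2.1, ?_⟩
          rw [c2.2, neg_neg', valid_append]
          refine ⟨⟨?_, trivial⟩, ?_⟩
          · rw [gain_b]
            refine mul_pos hR0 ?_
            simp only [Matrix.cons_val]
            cases x r <;> norm_num [sg]
          · have e2 : run (Sum.elim x ![x r, !(x r), !(x r)]) [.inr 2] =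
                Sum.elim x ![x r, !(x r), x r] := by
              rw [run, run, flip_inr, y3]
            rw [e2]
            exact c3.1
      · have e1 : run (Sum.elim (neg x) ![x r, x r, !(x r)]) [.inr 1] =
            Sum.elim (neg x) ![x r, !(x r), !(x r)] := by
          rw [run, run, flip_inr, y2]
        have e2 : run (Sum.elim x ![x r, !(x r), !(x r)]) [.inr 2] =
            Sum.elim x ![x r, !(x r), x r] := by
          rw [run, run, flip_inr, y3]
        rw [flip_inr, y1, run_append, c1.2, run_append, e1, run_append, c2.2, neg_neg',
          run_append, e2, c3.2]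
        funext j
        rcases j with j | j
        · rfl
        · fin_cases j <;> simp [neg, y]
      · simp only [L, List.length_append, List.length_map, List.length_cons, List.length_nil]
        rw [pow_succ]
        omega

/-! ## From cuts to the game -/

section game

variable {V E : Type} [DecidableEq V] [Fintype E]

/-- edges at `i` -/
def inc (s t : E → V) (i : V) : Finset E := univ.filter (fun e => s e = i ∨ t e = i)

/-- total weight at `i` -/
def tot (s t : E → V) (q : E → ℝ) (i : V) : ℝ := ∑ e ∈ inc s t i, q e

/-- the other end vertex -/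
def other (s t : E → V) (i : V) (e : E) : V := if s e = i then t e else s e

/-- the game of a weighted graph -/
noncomputable def game (s t : E → V) (q : E → ℝ) (hq : ∀ e, 0 < q e) : Game V (V ⊕ E) where
  interested i := Sum.elim (fun j => j = i) (fun e => s e = i ∨ t e = i)
  rate := Sum.elim (fun i => if 0 < tot s t q i then 3 / 4 * tot s t q i else 1) q
  cost := Sum.elim (fun i => ((inc s t i).card : ℝ) + 1) (fun _ => 1)
  budget i := (inc s t i).card + 1
  rate_pos := by
    rintro (i | e)
    · simp only [Sum.elim_inl]
      split_ifs with h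
      · positivity
      · exact one_pos
    · exact hq e
  cost_pos := by
    rintro (i | e)
    · simp only [Sum.elim_inl]; positivity
    · simp
  budget_pos := fun i => by positivity

/-- the state of the game: `true` stands for the shared sites, `false` for the private site -/
def St (s t : E → V) (x : V → Bool) (i : V) : Finset (V ⊕ E) :=
  if x i then (inc s t i).map Function.Embedding.inr else {.inl i}

/-- payoff of the shared sites of `i` -/
noncomputable def Bp (s t : E → V) (q : E → ℝ) (x : V → Bool) (i : V) : ℝ :=
  ∑ e ∈ inc s t i, q e / (if x (other s t i e) then 2 else 1)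

lemma gain_eq (s t : E → V) (q : E → ℝ) (hst : ∀ e, s e ≠ t e) (x : V → Bool) (i : V) :
    gain s t q x i = ∑ e ∈ inc s t i, sg (x i) (x (other s t i e)) * q e := by
  unfold gain inc
  rw [sum_filter]
  refine sum_congr rfl fun e _ => ?_
  by_cases h1 : s e = i
  · have h2 : t e ≠ i := fun h => hst e (h1.trans h.symm)
    simp [h1, h2, other]
  · by_cases h2 : t e = i
    · simp [h1, h2, other]
    · simp [h1, h2]

lemma Bp_eq (s t : E → V) (q : E → ℝ) (x : V → Bool) (i : V) :
    Bp s t q x i = 3 / 4 * tot s t q i +
      1 / 4 * ∑ e ∈ inc s t i, sg false (x (other s t i e)) * q e := by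
  unfold Bp tot
  rw [mul_sum, mul_sum, ← sum_add_distrib]
  refine sum_congr rfl fun e _ => ?_
  cases x (other s t i e) <;> norm_num [sg] <;> ring

lemma feasible_St (s t : E → V) (q : E → ℝ) (hq : ∀ e, 0 < q e) (x : V → Bool) (i : V) :
    (game s t q hq).Feasible i (St s t x i) := by
  unfold St
  split_ifs with h
  · refine ⟨?_, ?_⟩
    · intro h hh
      rw [mem_map] at hh
      obtain ⟨e, he, rfl⟩ := hh
      exact (mem_filter.1 he).2
    · rw [sum_map]
      simp [game]
  · refine ⟨?_, ?_⟩
    · intro h hh
      rw [mem_singleton] at hh
      subst hh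
      rfl
    · rw [sum_singleton]
      rfl

lemma load_private (s t : E → V) (x : V → Bool) (i : V) (T : V → Finset (V ⊕ E))
    (hT : ∀ k, k ≠ i → T k = St s t x k) (h : Sum.inl i ∈ T i) : load T (.inl i) = 1 := by
  have : {j | Sum.inl i ∈ T j} = {i} := by
    ext j
    simp only [Set.mem_ofPred_eq, Set.mem_singleton_iff]
    constructor
    · intro hj
      by_contra hne
      rw [hT j hne] at hj
      unfold St at hj
      split_ifs at hj
      · simp at hj
      · simp only [mem_singleton, Sum.inl.injEq] at hj
        exact hne hj.symm
    · rintro rfl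
      exact h
  rw [load, this, Set.ncard_singleton]

lemma load_shared (s t : E → V) (hst : ∀ e, s e ≠ t e) (x : V → Bool) (i : V)
    (T : V → Finset (V ⊕ E)) (hT : ∀ k, k ≠ i → T k = St s t x k) (e : E) (he : e ∈ inc s t i)
    (h : Sum.inr e ∈ T i) : load T (.inr e) = if x (other s t i e) then 2 else 1 := by
  have hoi : other s t i e ≠ i := by
    unfold other
    split_ifs with h1
    · exact fun h2 => hst e (h1.trans h2.symm)
    · exact h1
  have hmem : ∀ j, j ≠ i → (Sum.inr e ∈ T j ↔ x j = true ∧ j = other s t i e) := by
    intro j hj
    rw [hT j hj]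
    unfold St
    split_ifs with hx
    · simp only [mem_map, Function.Embedding.inr_apply, Sum.inr.injEq, exists_eq_right, hx,
        true_and]
      unfold inc at he ⊢
      simp only [mem_filter, mem_univ, true_and] at he ⊢
      unfold other
      rcases he with he | he
      · rw [if_pos he]
        constructor
        · rintro (h1 | h1)
          · exact absurd (h1.symm.trans he) hj
          · exact h1.symm
        · intro h1; right; exact h1.symm
      · have h3 : s e ≠ i := fun h4 => hst e (h4.trans he.symm)
        rw [if_neg h3]
        constructor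
        · rintro (h1 | h1)
          · exact h1.symm
          · exact absurd (h1.symm.trans he) hj
        · intro h1; left; exact h1.symm
    · simp [hx]
  have : {j | Sum.inr e ∈ T j} =
      if x (other s t i e) then {i, other s t i e} else {i} := by
    ext j
    by_cases hj : j = i
    · subst hj
      split_ifs <;> simp [h]
    · rw [Set.mem_ofPred_eq, hmem j hj]
      split_ifs with hx
      · simp only [Set.mem_insert_iff, Set.mem_singleton_iff, hj, false_or]
        constructor
        · exact fun h => h.2
        · rintro rfl; exact ⟨hx, rfl⟩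
      · simp only [Set.mem_singleton_iff, hj, iff_false, not_and]
        rintro h1 rfl
        exact hx h1
  rw [load, this]
  split_ifs with hx
  · exact Set.ncard_pair hoi.symm
  · exact Set.ncard_singleton i

lemma payoff_le (s t : E → V) (q : E → ℝ) (hq : ∀ e, 0 < q e) (hst : ∀ e, s e ≠ t e)
    (x : V → Bool) (i : V) (T : V → Finset (V ⊕ E)) (hT : ∀ k, k ≠ i → T k = St s t x k)
    (hf : (game s t q hq).Feasible i (T i)) :
    (game s t q hq).payoff T i ≤ max ((game s t q hq).rate (.inl i)) (Bp s t q x i) := by
  classical
  by_cases h : Sum.inl i ∈ T i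
  · refine le_trans (le_of_eq ?_) (le_max_left _ _)
    have h1 : T i = {.inl i} := by
      by_contra hne
      obtain ⟨h', hh', hne'⟩ : ∃ h' ∈ T i, h' ≠ Sum.inl i := by
        by_contra hcon
        push Not at hcon
        exact hne (eq_singleton_iff_unique_mem.2 ⟨h, hcon⟩)
      have h2 : (game s t q hq).cost (.inl i) + (game s t q hq).cost h' ≤
          ∑ k ∈ T i, (game s t q hq).cost k := by
        rw [← sum_pair (f := (game s t q hq).cost) hne'.symm]
        refine sum_le_sum_of_subset_of_nonneg ?_ fun k _ _ => ((game s t q hq).cost_pos k).le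
        intro k hk
        rw [mem_insert, mem_singleton] at hk
        rcases hk with rfl | rfl
        · exact h
        · exact hh'
      have h3 := hf.2
      have h4 := (game s t q hq).cost_pos h'
      have h5 : (game s t q hq).cost (.inl i) = (game s t q hq).budget i := rfl
      linarith
    unfold Game.payoff
    rw [sum_congr h1 (fun _ _ => rfl), sum_singleton, load_private s t x i T hT h]
    simp
  · refine le_trans ?_ (le_max_right _ _)
    have h1 : T i ⊆ (inc s t i).map Function.Embedding.inr := by
      intro k hk
      have h2 := hf.1 k hk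
      rcases k with j | e
      · have : j = i := h2
        subst this
        exact absurd hk h
      · rw [mem_map]
        exact ⟨e, mem_filter.2 ⟨mem_univ _, h2⟩, rfl⟩
    have h2 : (game s t q hq).payoff T i = ∑ k ∈ T i,
        Sum.elim (fun _ => (0 : ℝ)) (fun e => q e / (if x (other s t i e) then 2 else 1)) k := by
      unfold Game.payoff
      refine sum_congr rfl fun k hk => ?_
      rcases k with j | e
      · have := h1 hk
        simp at this
      · have he : e ∈ inc s t i := by
          have := h1 hk
          rw [mem_map] at this
          obtain ⟨e', he', h3⟩ := this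
          have : e' = e := by simpa using h3
          exact this ▸ he'
        rw [load_shared s t hst x i T hT e he hk]
        simp only [Sum.elim_inr]
        split_ifs <;> simp [game]
    rw [h2]
    refine le_trans (sum_le_sum_of_subset_of_nonneg h1 ?_) (le_of_eq ?_)
    · rintro (j | e) _ _
      · simp
      · simp only [Sum.elim_inr]
        split_ifs
        · exact div_nonneg (hq e).le (by norm_num)
        · exact div_nonneg (hq e).le (by norm_num)
    · rw [sum_map]
      rfl

lemma payoff_private (s t : E → V) (q : E → ℝ) (hq : ∀ e, 0 < q e) (x : V → Bool) (i : V)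
    (hx : x i = false) : (game s t q hq).payoff (St s t x) i = (game s t q hq).rate (.inl i) := by
  have h1 : St s t x i = {.inl i} := by simp [St, hx]
  have h2 : Sum.inl i ∈ St s t x i := by rw [h1]; simp
  unfold Game.payoff
  rw [sum_congr h1 (fun _ _ => rfl), sum_singleton,
    load_private s t x i (St s t x) (fun _ _ => rfl) h2]
  simp

lemma payoff_shared (s t : E → V) (q : E → ℝ) (hq : ∀ e, 0 < q e) (hst : ∀ e, s e ≠ t e)
    (x : V → Bool) (i : V) (hx : x i = true) :
    (game s t q hq).payoff (St s t x) i = Bp s t q x i := by
  have h1 : St s t x i = (inc s t i).map Function.Embedding.inr := by simp [St, hx]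
  unfold Game.payoff
  rw [sum_congr h1 (fun _ _ => rfl), sum_map]
  unfold Bp
  refine sum_congr rfl fun e he => ?_
  rw [show (Function.Embedding.inr e : V ⊕ E) = Sum.inr e from rfl,
    load_shared s t hst x i (St s t x) (fun _ _ => rfl) e he
      (by rw [h1, mem_map]; exact ⟨e, he, rfl⟩)]
  split_ifs <;> simp [game]

lemma Bp_flip (s t : E → V) (q : E → ℝ) (hst : ∀ e, s e ≠ t e) (x : V → Bool) (i : V) :
    Bp s t q (flip x i) i = Bp s t q x i := by
  unfold Bp
  refine sum_congr rfl fun e he => ?_
  have hoi : other s t i e ≠ i := by
    unfold other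
    split_ifs with h1
    · exact fun h2 => hst e (h1.trans h2.symm)
    · exact h1
  simp [flip, Function.update_of_ne hoi]

lemma move (s t : E → V) (q : E → ℝ) (hq : ∀ e, 0 < q e) (hst : ∀ e, s e ≠ t e)
    (x : V → Bool) (i : V) (hg : 0 < gain s t q x i) :
    (game s t q hq).BestResponseMove (St s t x) (St s t (flip x i)) := by
  rw [gain_eq s t q hst] at hg
  have htot : 0 < tot s t q i := by
    refine lt_of_lt_of_le hg (sum_le_sum fun e _ => ?_)
    have := hq e
    unfold sg
    split_ifs <;> linarith
  have hrate : (game s t q hq).rate (.inl i) = 3 / 4 * tot s t q i := if_pos htot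
  have hBp := Bp_eq s t q x i
  have hoff : ∀ k, k ≠ i → St s t (flip x i) k = St s t x k := by
    intro k hk
    simp [St, flip, Function.update_of_ne hk]
  -- the new payoff is the larger one of the two values
  have key : (game s t q hq).payoff (St s t (flip x i)) i =
      max ((game s t q hq).rate (.inl i)) (Bp s t q x i) ∧
      (game s t q hq).payoff (St s t x) i < (game s t q hq).payoff (St s t (flip x i)) i := by
    rcases hx : x i with _ | _
    · rw [hx] at hg
      have h1 : flip x i i = true := by simp [flip, hx]
      rw [payoff_private s t q hq x i hx, payoff_shared s t q hq hst _ i h1, Bp_flip s t q hst,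
        hrate]
      have h2 : 3 / 4 * tot s t q i < Bp s t q x i := by rw [hBp]; linarith
      exact ⟨(max_eq_right h2.le).symm, h2⟩
    · rw [hx] at hg
      have h1 : flip x i i = false := by simp [flip, hx]
      rw [payoff_private s t q hq _ i h1, payoff_shared s t q hq hst x i hx, hrate]
      have h3 : ∑ e ∈ inc s t i, sg false (x (other s t i e)) * q e =
          - ∑ e ∈ inc s t i, sg true (x (other s t i e)) * q e := by
        rw [← sum_neg_distrib]
        refine sum_congr rfl fun e _ => ?_
        cases x (other s t i e) <;> simp [sg]
      have h2 : Bp s t q x i < 3 / 4 * tot s t q i := by rw [hBp, h3]; linarith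
      exact ⟨(max_eq_left h2.le).symm, h2⟩
  refine ⟨i, hoff, feasible_St s t q hq _ i, ?_, key.2⟩
  intro T hT hf
  rw [key.1]
  exact payoff_le s t q hq hst x i T hT hf

end game

/-- **Full answer to Q1 (yes).** There are a constant `c > 0` and instances of the budgeted sharing
game with `n + m` arbitrarily large (`n` agents, `m` sites), each of which admits a best-response path
of length at least `2 ^ (c (n + m))`. -/
theorem result : ∃ c : ℝ, 0 < c ∧ ∀ N : ℕ, ∃ (U H : Type) (_ : Fintype U) (_ : Fintype H)
    (G : Game U H) (L : ℕ) (p : ℕ → U → Finset H),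
    N ≤ Fintype.card U + Fintype.card H ∧ G.IsBestResponsePath L p ∧
    (2 : ℝ) ^ (c * ((Fintype.card U : ℝ) + (Fintype.card H : ℝ))) ≤ (L : ℝ) := by
  refine ⟨1 / 13, by norm_num, fun N => ?_⟩
  obtain ⟨V, E, _, _, _, s, t, q, r, x, l, hV, hE, hst, hq, -, hv, -, hl⟩ := chain (N + 1)
  refine ⟨V, V ⊕ E, inferInstance, inferInstance, game s t q hq, l.length,
    fun k => St s t (run (flip x r) (l.take k)), ?_, ⟨fun j => feasible_St s t q hq _ j, ?_⟩, ?_⟩
  · rw [Fintype.card_sum, hV, hE]; omega
  · intro k hk
    have h1 : l.take (k + 1) = l.take k ++ [l[k]] := (List.take_append_getElem hk).symm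
    have h2 : Valid s t q (flip x r) (l.take (k + 1)) := by
      have h3 : l.take (k + 1) ++ l.drop (k + 1) = l := List.take_append_drop _ _
      rw [← h3, valid_append] at hv
      exact hv.1
    rw [h1, valid_append] at h2
    show (game s t q hq).BestResponseMove (St s t (run (flip x r) (l.take k)))
      (St s t (run (flip x r) (l.take (k + 1))))
    rw [h1, run_append]
    exact move s t q hq hst _ _ h2.2.1
  · rw [Fintype.card_sum, hV, hE]
    have h1 : (1 / 13 : ℝ) * (((3 * (N + 1) + 1 : ℕ) : ℝ) +
        ((3 * (N + 1) + 1 + 5 * (N + 1) : ℕ) : ℝ)) ≤ ((N + 1 : ℕ) : ℝ) := by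
      push_cast
      have : (0 : ℝ) ≤ N := Nat.cast_nonneg N
      linarith
    refine (Real.rpow_le_rpow_of_exponent_le (by norm_num) h1).trans ?_
    rw [Real.rpow_natCast]
    have h2 : 2 ^ (N + 1) + 1 ≤ 3 ^ (N + 1) := by
      clear h1 hl hV hE
      induction N with
      | zero => norm_num
      | succ N ih => rw [pow_succ 2 (N + 1), pow_succ 3 (N + 1)]; omega
    have h3 : 2 ^ (N + 1) ≤ l.length := by omega
    exact_mod_cast h3

end Pool.Agent.Results.MP_2a1065_lc.ExponentialPath
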